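import Pool.Agent.H54.RE.Stm
import Pool.Agent.Results.MP_d08c72_co.PathComponents
import Pool.Graph.R_seed8.W979.TE.Lower

/-!
# Assembly: all large powers of the trees of Bukh and Conlon with b > 2 a
-/

set_option autoImplicit false

open Classical

namespace Pool.Agent.H54.RE

theorem asm (hbal : S_BAL) (hconv : S_CONV) (a k : ℕ) (ha : 0 < a) (hak : a < k) :
    ∃ t0 : ℕ, 0 < t0 ∧ ∀ t : ℕ, t0 ≤ t →
      HasExponent (Blow (BT a k) (BR a k) t) (2 - (a : ℝ) / ((a : ℝ) + (k : ℝ))) := by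
  obtain ⟨hT, hR, hE, hN, hB, hD⟩ := hbal a k ha (by omega)
  have ha0 : (0 : ℝ) < a := by exact_mod_cast ha
  have hk0 : (a : ℝ) < k := by exact_mod_cast hak
  have hs : (0 : ℝ) < (a : ℝ) + k := by positivity
  have hr1 : 1 < 2 - (a : ℝ) / ((a : ℝ) + (k : ℝ)) := by
    have : (a : ℝ) / ((a : ℝ) + (k : ℝ)) < 1 := by
      rw [div_lt_one hs]; linarith
    linarith
  -- the lower bound
  obtain ⟨t0, ht0, c, hc, n0, hlow⟩ := Pool.Agent.W979.TE.lower (Fin a ⊕ Fin (k + 1)) (BT a k)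
    (BR a k) a (a + k) hN.symm hE.symm ha (by omega) (fun S hS => hB S hS)
  refine ⟨t0, ht0, fun t ht => ?_⟩
  have hup := Pool.Agent.Results.MP_d08c72_co.PathComponents.result (Fin a ⊕ Fin (k + 1))
    (BT a k) (BR a k) hT hR (((a : ℝ) + k) / a) ?_ ?_ ?_ hD
  · refine hconv (Fin a ⊕ Fin (k + 1)) (BT a k) (BR a k) _ hr1 ?_ t0 ht0 ?_ t ht
    · intro t ht
      obtain ⟨C, hC⟩ := hup t ht
      refine ⟨C, fun n G hG => ?_⟩
      have := hC n G hG
      rwa [one_div_div] at this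
    · refine ⟨c, hc, n0, fun n hn => ?_⟩
      obtain ⟨G, hG1, hG2⟩ := hlow n hn
      refine ⟨G, hG1, ?_⟩
      have e : ((a + k : ℕ) : ℝ) = (a : ℝ) + k := by push_cast; ring
      rw [e] at hG2
      exact hG2
  · have e1 : ({e | e ∈ (BT a k).edgeSet ∧ ∃ v ∈ (BR a k)ᶜ, v ∈ e} :
      Set (Sym2 (Fin a ⊕ Fin (k + 1)))).ncard = a + k := hE
    rw [e1, hN]
    push_cast
    ring
  · intro S hS hSR
    have e1 := hB S hSR
    have e2 : (eS (BT a k) S : ℝ) = (({e | e ∈ (BT a k).edgeSet ∧ ∃ v ∈ S, v ∈ e} :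
      Set (Sym2 (Fin a ⊕ Fin (k + 1)))).ncard : ℝ) := rfl
    rw [← e2]
    have hSc : (0 : ℝ) < S.ncard := by
      exact_mod_cast (Set.ncard_pos (Set.toFinite S)).2 hS
    rw [div_le_div_iff₀ ha0 hSc]
    have e3 : (((a + k) * S.ncard : ℕ) : ℝ) ≤ ((a * eS (BT a k) S : ℕ) : ℝ) := by
      exact_mod_cast e1
    push_cast at e3
    nlinarith
  · rw [lt_div_iff₀ ha0]
    linarith

end Pool.Agent.H54.RE
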