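import Pool.Agent.H54.RE.Stm

set_option autoImplicit false

open Classical Finset

namespace Pool.Agent.H54.RE.Bal

/-- The vertex to which the root `j` is joined. -/
def par (a k : ℕ) (ha : 0 < a) (hk : 0 < k) (j : Fin (k + 1)) : Fin a :=
  ⟨if j.val < k then j.val * a / k else a - 1, by
    split_ifs with h
    · rw [Nat.div_lt_iff_lt_mul hk, mul_comm a k]
      exact Nat.mul_lt_mul_of_pos_right h ha
    · omega⟩

/-- The edges. -/
def ed (a k : ℕ) (ha : 0 < a) (hk : 0 < k) :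
    Fin (a - 1) ⊕ Fin (k + 1) → Sym2 (Fin a ⊕ Fin (k + 1))
  | .inl i => s(.inl ⟨i.val, by omega⟩, .inl ⟨i.val + 1, by omega⟩)
  | .inr j => s(.inl (par a k ha hk j), .inr j)

theorem ed_inj (a k : ℕ) (ha : 0 < a) (hk : 0 < k) : Function.Injective (ed a k ha hk) := by
  rintro (i | j) (i' | j') h
  · simp only [ed, Sym2.eq_iff, Sum.inl.injEq, Fin.mk.injEq] at h
    rcases h with ⟨h1, _⟩ | ⟨h1, h2⟩
    · exact congrArg _ (Fin.ext h1)
    · omega
  · simp [ed] at h
  · simp [ed] at h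
  · simp only [ed, Sym2.eq_iff, Sum.inr.injEq] at h
    rcases h with ⟨_, h2⟩ | ⟨h1, _⟩
    · rw [h2]
    · cases h1

theorem edgeSet_eq (a k : ℕ) (ha : 0 < a) (hk : 0 < k) :
    (BT a k).edgeSet = Set.range (ed a k ha hk) := by
  have key : ∀ u v : Fin a ⊕ Fin (k + 1), u ≠ v →
      ((∃ i j : Fin a, u = Sum.inl i ∧ v = Sum.inl j ∧ i.val + 1 = j.val) ∨
      (∃ (i : Fin a) (j : Fin (k + 1)), u = Sum.inl i ∧ v = Sum.inr j ∧
        i.val = if j.val < k then j.val * a / k else a - 1)) →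
      s(u, v) ∈ Set.range (ed a k ha hk) := by
    rintro u v _ (⟨i, j, rfl, rfl, hij⟩ | ⟨i, j, rfl, rfl, hij⟩)
    · refine ⟨.inl ⟨i.val, by omega⟩, ?_⟩
      have h1 : (⟨i.val + 1, by omega⟩ : Fin a) = j := Fin.ext hij
      simp only [ed]
      rw [h1]
    · refine ⟨.inr j, ?_⟩
      have h1 : par a k ha hk j = i := Fin.ext hij.symm
      simp only [ed]
      rw [h1]
  ext e
  induction e using Sym2.ind with
  | _ u v =>
  rw [SimpleGraph.mem_edgeSet]
  constructor
  · intro h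
    rw [BT, SimpleGraph.fromRel_adj] at h
    obtain ⟨hne, h | h⟩ := h
    · exact key u v hne h
    · rw [Sym2.eq_swap]
      exact key v u hne.symm h
  · rintro ⟨x, hx⟩
    rw [BT, SimpleGraph.fromRel_adj]
    rcases x with i | j
    · simp only [ed] at hx
      rcases Sym2.eq_iff.1 hx with ⟨rfl, rfl⟩ | ⟨rfl, rfl⟩
      · refine ⟨?_, Or.inl (Or.inl ⟨_, _, rfl, rfl, rfl⟩)⟩
        intro h
        have := congrArg Fin.val (Sum.inl.inj h)
        simp at this
      · refine ⟨?_, Or.inr (Or.inl ⟨_, _, rfl, rfl, rfl⟩)⟩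
        intro h
        have := congrArg Fin.val (Sum.inl.inj h)
        simp at this
    · simp only [ed] at hx
      rcases Sym2.eq_iff.1 hx with ⟨rfl, rfl⟩ | ⟨rfl, rfl⟩
      · exact ⟨by simp, Or.inl (Or.inr ⟨_, _, rfl, rfl, rfl⟩)⟩
      · exact ⟨by simp, Or.inr (Or.inr ⟨_, _, rfl, rfl, rfl⟩)⟩

theorem card_edgeSet (a k : ℕ) (ha : 0 < a) (hk : 0 < k) :
    Nat.card (BT a k).edgeSet = a + k := by
  rw [edgeSet_eq a k ha hk, Nat.card_range_of_injective (ed_inj a k ha hk)]
  simp only [Nat.card_eq_fintype_card, Fintype.card_sum, Fintype.card_fin]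
  omega

theorem adj_path (a k : ℕ) (ha : 0 < a) (hk : 0 < k) (i : ℕ) (hi : i + 1 < a) :
    (BT a k).Adj (.inl ⟨i, by omega⟩) (.inl ⟨i + 1, hi⟩) := by
  rw [← SimpleGraph.mem_edgeSet, edgeSet_eq a k ha hk]
  exact ⟨.inl ⟨i, by omega⟩, rfl⟩

theorem adj_root (a k : ℕ) (ha : 0 < a) (hk : 0 < k) (j : Fin (k + 1)) :
    (BT a k).Adj (.inl (par a k ha hk j)) (.inr j) := by
  rw [← SimpleGraph.mem_edgeSet, edgeSet_eq a k ha hk]
  exact ⟨.inr j, rfl⟩

theorem connected (a k : ℕ) (ha : 0 < a) (hk : 0 < k) : (BT a k).Connected := by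
  have h1 : ∀ i : ℕ, ∀ hi : i < a, (BT a k).Reachable (.inl ⟨0, ha⟩) (.inl ⟨i, hi⟩) := by
    intro i
    induction i with
    | zero => intro _; exact SimpleGraph.Reachable.refl _
    | succ n ih =>
      intro hi
      exact (ih (by omega)).trans (adj_path a k ha hk n hi).reachable
  have h2 : ∀ v, (BT a k).Reachable (.inl ⟨0, ha⟩) v := by
    rintro (i | j)
    · exact h1 i.val i.isLt
    · exact (h1 _ (par a k ha hk j).isLt).trans (adj_root a k ha hk j).reachable
  have : Nonempty (Fin a ⊕ Fin (k + 1)) := ⟨.inl ⟨0, ha⟩⟩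
  exact ⟨fun u v => (h2 u).symm.trans (h2 v)⟩

theorem isTree (a k : ℕ) (ha : 0 < a) (hk : 0 < k) : (BT a k).IsTree := by
  rw [SimpleGraph.isTree_iff_connected_and_card]
  refine ⟨connected a k ha hk, ?_⟩
  rw [card_edgeSet a k ha hk]
  simp only [Nat.card_eq_fintype_card, Fintype.card_sum, Fintype.card_fin]
  omega

/-- ceiling of `v k / a` -/
def ph (a k v : ℕ) : ℕ := (v * k + (a - 1)) / a

theorem ph_le (a k v j : ℕ) (ha : 0 < a) : ph a k v ≤ j ↔ v * k ≤ j * a := by
  unfold ph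
  rw [← Nat.lt_succ_iff, Nat.div_lt_iff_lt_mul ha, Nat.succ_eq_add_one, Nat.add_mul, one_mul]
  omega

theorem ph_bd (a k v : ℕ) (ha : 0 < a) : v * k ≤ a * ph a k v ∧ a * ph a k v < v * k + a := by
  constructor
  · have h := (ph_le a k v (ph a k v) ha).1 le_rfl
    rwa [mul_comm (ph a k v) a] at h
  · by_contra h
    push Not at h
    have h2 : 0 < ph a k v := by
      by_contra h0
      have : ph a k v = 0 := by omega
      rw [this] at h
      omega
    have h3 : ¬ ph a k v ≤ ph a k v - 1 := by omega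
    rw [ph_le a k v _ ha] at h3
    apply h3
    rw [Nat.sub_mul, mul_comm (ph a k v) a]
    omega

theorem ph_zero (a k : ℕ) (ha : 0 < a) : ph a k 0 = 0 := by
  have h := (ph_le a k 0 0 ha).2 (by simp)
  omega

theorem ph_a (a k : ℕ) (ha : 0 < a) : ph a k a = k := by
  have h := ph_bd a k a ha
  obtain ⟨h1, h2⟩ := h
  have h3 : k ≤ ph a k a := Nat.le_of_mul_le_mul_left h1 ha
  have h4 : ph a k a < k + 1 := by
    apply Nat.lt_of_mul_lt_mul_left (a := a)
    rw [mul_add]
    omega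
  omega

theorem ph_mono (a k : ℕ) {v w : ℕ} (h : v ≤ w) : ph a k v ≤ ph a k w := by
  unfold ph
  apply Nat.div_le_div_right
  have := Nat.mul_le_mul_right k h
  omega

/-- Number of the roots at `v`. -/
theorem card_roots (a k : ℕ) (ha : 0 < a) (hk : 0 < k) (v : ℕ) (hv : v < a) :
    ((range k).filter (fun j => j * a / k = v)).card = ph a k (v + 1) - ph a k v := by
  have h : (range k).filter (fun j => j * a / k = v) = Ico (ph a k v) (ph a k (v + 1)) := by
    ext j
    rw [mem_filter, mem_range, mem_Ico]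
    have h1 := ph_le a k v j ha
    have h2 := ph_le a k (v + 1) j ha
    rw [Nat.div_eq_iff hk]
    constructor
    · rintro ⟨h3, h4, h5⟩
      refine ⟨h1.2 h4, ?_⟩
      by_contra h6
      have h7 := h2.1 (by omega)
      rw [Nat.add_mul] at h7
      omega
    · rintro ⟨h3, h4⟩
      have h5 := h1.1 h3
      have h6 : ¬ ((v + 1) * k ≤ j * a) := fun h => by
        have := h2.2 h
        omega
      refine ⟨?_, h5, ?_⟩
      · have h7 := ph_mono a k (show v + 1 ≤ a by omega)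
        rw [ph_a a k ha] at h7
        omega
      · rw [Nat.add_mul] at h6
        omega
  rw [h, Nat.card_Ico]

/-- The key inequality, by induction. `c` is the indicator of the set. -/
theorem key_ineq (a k : ℕ) (ha : 0 < a) (c : ℕ → ℕ) (hc : ∀ v, c v = 0 ∨ c v = 1) (n : ℕ) :
    (if c (n - 1) = 1 ∧ 0 < n then (a * ph a k n : ℤ) - n * k else 0) +
      ∑ v ∈ range n, (c v : ℤ) * k ≤
    a * ∑ v ∈ range n, (c v : ℤ) * ((ph a k (v + 1) : ℤ) - ph a k v) +
      a * ∑ v ∈ range n, (if v = 0 then 0 else (c v : ℤ) * (1 - c (v - 1))) := by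
  induction n with
  | zero => simp
  | succ n ih =>
    rw [sum_range_succ, sum_range_succ, sum_range_succ]
    have b1 := ph_bd a k n ha
    have b2 := ph_bd a k (n + 1) ha
    have b1' : (n * k : ℤ) ≤ a * ph a k n ∧ (a * ph a k n : ℤ) < n * k + a := by
      exact_mod_cast b1
    have b2' : ((n + 1) * k : ℤ) ≤ a * ph a k (n + 1) ∧
        (a * ph a k (n + 1) : ℤ) < (n + 1) * k + a := by
      exact_mod_cast b2
    simp only [Nat.add_sub_cancel, Nat.succ_pos, and_true]
    push_cast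
    rcases hc n with h0 | h0
    · rw [h0]
      simp only [Nat.cast_zero, zero_mul, zero_ne_one, if_false, ite_self, add_zero]
      refine le_trans ?_ ih
      have : (0 : ℤ) ≤ (if c (n - 1) = 1 ∧ 0 < n then (a * ph a k n : ℤ) - n * k else 0) := by
        split_ifs
        · linarith [b1'.1]
        · exact le_rfl
      linarith
    · rw [h0]
      simp only [Nat.cast_one, one_mul, if_true]
      rcases Nat.eq_zero_or_pos n with hn | hn
      · subst hn
        simp [ph_zero a k ha]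
      · rw [if_neg (by omega : ¬ n = 0)]
        rcases hc (n - 1) with h1 | h1
        · rw [h1] at ih ⊢
          simp only [zero_ne_one, false_and, if_false] at ih
          simp only [Nat.cast_zero, sub_zero]
          nlinarith [ih, b1'.1, b1'.2, b2'.1]
        · rw [h1] at ih ⊢
          rw [if_pos ⟨rfl, hn⟩] at ih
          simp only [Nat.cast_one, sub_self]
          nlinarith [ih]

theorem final_ineq (a k : ℕ) (ha : 0 < a) (hk : 0 < k) (c : ℕ → ℕ)
    (hc : ∀ v, c v = 0 ∨ c v = 1) :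
    (a + k) * ∑ v ∈ range a, c v ≤
      a * (∑ i ∈ range (a - 1), (if c i = 1 ∨ c (i + 1) = 1 then 1 else 0) +
        ∑ j ∈ range (k + 1), c (if j < k then j * a / k else a - 1)) := by
  have h1 := key_ineq a k ha c hc a
  have b1 := ph_bd a k a ha
  have b1' : (a * k : ℤ) ≤ a * ph a k a := by exact_mod_cast b1.1
  have h2 : (0 : ℤ) ≤ (if c (a - 1) = 1 ∧ 0 < a then (a * ph a k a : ℤ) - a * k else 0) := by
    split_ifs
    · linarith
    · exact le_rfl
  -- roots
  have hR : ∑ j ∈ range (k + 1), c (if j < k then j * a / k else a - 1) =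
      ∑ v ∈ range a, c v * (ph a k (v + 1) - ph a k v) + c (a - 1) := by
    rw [sum_range_succ, if_neg (lt_irrefl k)]
    congr 1
    rw [sum_congr rfl (fun j hj => by rw [if_pos (mem_range.1 hj)])]
    have hm : ∀ j ∈ range k, j * a / k ∈ range a := by
      intro j hj
      rw [mem_range, Nat.div_lt_iff_lt_mul hk, mul_comm a k]
      exact Nat.mul_lt_mul_of_pos_right (mem_range.1 hj) ha
    rw [← sum_fiberwise_of_maps_to hm]
    refine sum_congr rfl fun v hv => ?_
    rw [sum_congr rfl (fun j hj => by rw [(mem_filter.1 hj).2]), sum_const, smul_eq_mul,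
      card_roots a k ha hk v (mem_range.1 hv), mul_comm]
  have hRz : (∑ v ∈ range a, (c v : ℤ) * ((ph a k (v + 1) : ℤ) - ph a k v)) =
      ((∑ v ∈ range a, c v * (ph a k (v + 1) - ph a k v) : ℕ) : ℤ) := by
    push_cast
    refine sum_congr rfl fun v _ => ?_
    rw [Nat.cast_sub (ph_mono a k (Nat.le_succ v))]
  have hP : ((∑ i ∈ range (a - 1), (if c i = 1 ∨ c (i + 1) = 1 then 1 else 0) : ℕ) : ℤ) =
      ∑ i ∈ range (a - 1), (c i : ℤ) +
        ∑ v ∈ range a, (if v = 0 then 0 else (c v : ℤ) * (1 - c (v - 1))) := by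
    obtain ⟨b, rfl⟩ : ∃ b, a = b + 1 := ⟨a - 1, by omega⟩
    rw [sum_range_succ' _ b, Nat.add_sub_cancel]
    simp only [if_true, add_zero, Nat.succ_ne_zero, if_false, Nat.add_sub_cancel]
    rw [← sum_add_distrib]
    push_cast
    refine sum_congr rfl fun i _ => ?_
    rcases hc i with h | h <;> rcases hc (i + 1) with h' | h' <;> simp [h, h']
  have hs : (∑ v ∈ range a, (c v : ℤ)) = ∑ i ∈ range (a - 1), (c i : ℤ) + c (a - 1) := by
    obtain ⟨b, rfl⟩ : ∃ b, a = b + 1 := ⟨a - 1, by omega⟩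
    rw [sum_range_succ, Nat.add_sub_cancel]
  have hk' : ∑ v ∈ range a, (c v : ℤ) * k = (∑ v ∈ range a, (c v : ℤ)) * k := by
    rw [sum_mul]
  have hfin : (((a + k) * ∑ v ∈ range a, c v : ℕ) : ℤ) ≤
      ((a * (∑ i ∈ range (a - 1), (if c i = 1 ∨ c (i + 1) = 1 then 1 else 0) +
        ∑ j ∈ range (k + 1), c (if j < k then j * a / k else a - 1)) : ℕ) : ℤ) := by
    rw [hR, Nat.cast_mul, Nat.cast_mul, Nat.cast_add (∑ i ∈ range (a - 1), _), hP,
      Nat.cast_add (∑ v ∈ range a, _), ← hRz, Nat.cast_add, Nat.cast_sum]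
    rw [hk'] at h1
    rw [hs] at h1 ⊢
    nlinarith [h1, h2]
  exact_mod_cast hfin

/-- The indicator of a set of path vertices. -/
noncomputable def ind (a k : ℕ) (S : Set (Fin a ⊕ Fin (k + 1))) (v : ℕ) : ℕ :=
  if h : v < a then (if Sum.inl ⟨v, h⟩ ∈ S then 1 else 0) else 0

theorem ind_01 (a k : ℕ) (S : Set (Fin a ⊕ Fin (k + 1))) (v : ℕ) :
    ind a k S v = 0 ∨ ind a k S v = 1 := by
  unfold ind
  split_ifs <;> simp

theorem ind_one (a k : ℕ) (S : Set (Fin a ⊕ Fin (k + 1))) (i : Fin a) :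
    ind a k S i.val = if Sum.inl i ∈ S then 1 else 0 := by
  unfold ind
  rw [dif_pos i.isLt]

theorem ncard_S (a k : ℕ) (S : Set (Fin a ⊕ Fin (k + 1))) (hS : S ⊆ (BR a k)ᶜ) :
    S.ncard = ∑ v ∈ range a, ind a k S v := by
  have h1 : S = Sum.inl '' {i : Fin a | Sum.inl i ∈ S} := by
    ext v
    constructor
    · intro hv
      rcases v with i | j
      · exact ⟨i, hv, rfl⟩
      · exact absurd ⟨j, rfl⟩ (hS hv)
    · rintro ⟨i, hi, rfl⟩
      exact hi
  have h2 : S.ncard = ({i : Fin a | (Sum.inl i : Fin a ⊕ Fin (k + 1)) ∈ S}).ncard := by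
    conv_lhs => rw [h1]
    exact Set.ncard_image_of_injective _ Sum.inl_injective
  rw [h2, Set.ncard_eq_toFinset_card', Set.toFinset_ofPred, card_filter,
    ← Fin.sum_univ_eq_sum_range (fun v => ind a k S v) a]
  exact sum_congr rfl fun i _ => (ind_one a k S i).symm

theorem eS_eq (a k : ℕ) (ha : 0 < a) (hk : 0 < k) (S : Set (Fin a ⊕ Fin (k + 1)))
    (hS : S ⊆ (BR a k)ᶜ) :
    eS (BT a k) S = ∑ i ∈ range (a - 1), (if ind a k S i = 1 ∨ ind a k S (i + 1) = 1 then 1 else 0) +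
        ∑ j ∈ range (k + 1), ind a k S (if j < k then j * a / k else a - 1) := by
  have h1 : ({e | e ∈ (BT a k).edgeSet ∧ ∃ v ∈ S, v ∈ e} : Set (Sym2 (Fin a ⊕ Fin (k + 1)))) =
      ed a k ha hk '' {x | ∃ v ∈ S, v ∈ ed a k ha hk x} := by
    ext e
    rw [edgeSet_eq a k ha hk]
    constructor
    · rintro ⟨⟨x, rfl⟩, h⟩
      exact ⟨x, h, rfl⟩
    · rintro ⟨x, h, rfl⟩
      exact ⟨⟨x, rfl⟩, h⟩
  rw [eS, h1, Set.ncard_image_of_injective _ (ed_inj a k ha hk), Set.ncard_eq_toFinset_card',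
    Set.toFinset_ofPred, card_filter, Fintype.sum_sum_type]
  congr 1
  · rw [← Fin.sum_univ_eq_sum_range
      (fun i => if ind a k S i = 1 ∨ ind a k S (i + 1) = 1 then 1 else 0) (a - 1)]
    refine sum_congr rfl fun i _ => ?_
    have e1 := ind_one a k S ⟨i.val, by omega⟩
    have e2 := ind_one a k S ⟨i.val + 1, by omega⟩
    simp only at e1 e2
    rw [e1, e2]
    simp only [ed, Sym2.mem_iff]
    refine if_congr ?_ rfl rfl
    constructor
    · rintro ⟨v, hv, rfl | rfl⟩
      · left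
        rw [if_pos hv]
      · right
        rw [if_pos hv]
    · rintro (h | h)
      · refine ⟨_, ?_, Or.inl rfl⟩
        by_contra h'
        rw [if_neg h'] at h
        exact absurd h (by decide)
      · refine ⟨_, ?_, Or.inr rfl⟩
        by_contra h'
        rw [if_neg h'] at h
        exact absurd h (by decide)
  · rw [← Fin.sum_univ_eq_sum_range
      (fun j => ind a k S (if j < k then j * a / k else a - 1)) (k + 1)]
    refine sum_congr rfl fun j _ => ?_
    have e1 := ind_one a k S (par a k ha hk j)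
    simp only [par] at e1
    rw [e1]
    simp only [ed, Sym2.mem_iff]
    refine if_congr ?_ rfl rfl
    constructor
    · rintro ⟨v, hv, rfl | rfl⟩
      · exact hv
      · exact absurd ⟨j, rfl⟩ (hS hv)
    · intro h
      exact ⟨_, h, Or.inl rfl⟩

theorem mem_compl_BR (a k : ℕ) (v : Fin a ⊕ Fin (k + 1)) (hv : v ∉ BR a k) :
    ∃ i, v = Sum.inl i := by
  rcases v with i | j
  · exact ⟨i, rfl⟩
  · exact absurd ⟨j, rfl⟩ hv

theorem adj_inl (a k : ℕ) (i j : Fin a)
    (h : (BT a k).Adj (Sum.inl i) (Sum.inl j)) : i.val + 1 = j.val ∨ j.val + 1 = i.val := by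
  rw [BT, SimpleGraph.fromRel_adj] at h
  obtain ⟨_, (⟨i', j', h1, h2, h3⟩ | ⟨i', j', h1, h2, h3⟩) |
    (⟨i', j', h1, h2, h3⟩ | ⟨i', j', h1, h2, h3⟩)⟩ := h
  · left
    rw [Sum.inl.inj h1, Sum.inl.inj h2, h3]
  · cases h2
  · right
    rw [Sum.inl.inj h1, Sum.inl.inj h2, h3]
  · cases h2

theorem bal : S_BAL := by
  intro a k ha hk
  refine ⟨isTree a k ha hk, ?_, ?_, ?_, ?_, ?_⟩
  · rintro _ ⟨i, rfl⟩ _ ⟨j, rfl⟩ h
    rw [BT, SimpleGraph.fromRel_adj] at h
    obtain ⟨_, (⟨i', j', h1, h2, h3⟩ | ⟨i', j', h1, h2, h3⟩) |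
      (⟨i', j', h1, h2, h3⟩ | ⟨i', j', h1, h2, h3⟩)⟩ := h
    all_goals cases h1
  · have h1 : ({e | e ∈ (BT a k).edgeSet ∧ ∃ v ∈ (BR a k)ᶜ, v ∈ e} :
        Set (Sym2 (Fin a ⊕ Fin (k + 1)))) = (BT a k).edgeSet := by
      ext e
      refine ⟨fun h => h.1, fun h => ⟨h, ?_⟩⟩
      rw [edgeSet_eq a k ha hk] at h
      obtain ⟨x, rfl⟩ := h
      rcases x with i | j
      · exact ⟨_, by simp [BR], Sym2.mem_mk_left _ _⟩
      · exact ⟨_, by simp [BR], Sym2.mem_mk_left _ _⟩
    rw [eS, h1, ← card_edgeSet a k ha hk]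
    rfl
  · have h1 : ((BR a k)ᶜ : Set (Fin a ⊕ Fin (k + 1))) = Set.range Sum.inl := by
      ext v
      constructor
      · intro hv
        obtain ⟨i, rfl⟩ := mem_compl_BR a k v hv
        exact ⟨i, rfl⟩
      · rintro ⟨i, rfl⟩
        simp [BR]
    rw [h1, ← Nat.card_coe_set_eq, Nat.card_range_of_injective Sum.inl_injective]
    simp
  · intro S hS
    rw [ncard_S a k S hS, eS_eq a k ha hk S hS]
    exact final_ineq a k ha hk (ind a k S) (ind_01 a k S)
  · intro v hv
    obtain ⟨i, rfl⟩ := mem_compl_BR a k v hv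
    let g : ℕ → Fin a ⊕ Fin (k + 1) := fun m => if h : m < a then Sum.inl ⟨m, h⟩ else Sum.inr 0
    have h1 : ({u | u ∉ BR a k ∧ (BT a k).Adj (Sum.inl i) u} : Set (Fin a ⊕ Fin (k + 1))) ⊆
        g '' {i.val + 1, i.val - 1} := by
      rintro u ⟨hu, hadj⟩
      obtain ⟨j, rfl⟩ := mem_compl_BR a k u hu
      refine ⟨j.val, ?_, ?_⟩
      · rcases adj_inl a k i j hadj with h | h
        · left
          exact h.symm
        · right
          rw [Set.mem_singleton_iff]
          omega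
      · simp only [g, dif_pos j.isLt]
    calc _ ≤ (g '' {i.val + 1, i.val - 1}).ncard := Set.ncard_le_ncard h1 (Set.toFinite _)
      _ ≤ ({i.val + 1, i.val - 1} : Set ℕ).ncard := Set.ncard_image_le (Set.toFinite _)
      _ ≤ 2 := by
        have := Set.ncard_insert_le (i.val + 1) ({i.val - 1} : Set ℕ)
        rw [Set.ncard_singleton] at this
        exact this

end Pool.Agent.H54.RE.Bal
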