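import Pool.Agent.H54.RE.Stm

set_option autoImplicit false

open Classical

namespace Pool.Agent.H54.RE.Conv

open Pool.Agent.H54.RE

/-- not containing an injective homomorphic image is being free -/
theorem free_iff {W V' : Type} (H : SimpleGraph W) (G : SimpleGraph V') :
    (¬ ∃ f : W → V', Function.Injective f ∧ ∀ a b : W, H.Adj a b → G.Adj (f a) (f b)) ↔
      H.Free G := by
  rw [SimpleGraph.Free, not_iff_not]
  constructor
  · rintro ⟨f, hf, h⟩
    exact ⟨⟨⟨f, fun {a b} hab => h a b hab⟩, hf⟩⟩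
  · rintro ⟨φ⟩
    exact ⟨φ, φ.injective, fun a b hab => φ.toHom.map_adj hab⟩

theorem edge_ncard {n : ℕ} (G : SimpleGraph (Fin n)) [Fintype G.edgeSet] :
    G.edgeSet.ncard = G.edgeFinset.card := by
  rw [Set.ncard_eq_toFinset_card', SimpleGraph.edgeFinset]

theorem blow_mono {V : Type} (T : SimpleGraph V) (R : Set V) {t0 t : ℕ} (h : t0 ≤ t) :
    (Blow T R t0).IsContained (Blow T R t) := by
  let f : BV R t0 → BV R t := fun p => ⟨p.1, lt_of_lt_of_le p.2.1 h, p.2.2⟩
  have hf : Function.Injective f := by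
    intro p q hpq
    have h1 : (f p).1 = (f q).1 := by rw [hpq]
    exact Subtype.ext h1
  refine ⟨⟨⟨f, ?_⟩, hf⟩⟩
  intro a b hab
  unfold Blow at hab ⊢
  rw [SimpleGraph.fromRel_adj] at hab ⊢
  exact ⟨fun he => hab.1 (hf he), hab.2⟩

theorem conv : S_CONV := by
  intro V _ T R r _hr hup t0 ht0 hlow t ht
  obtain ⟨C, hC⟩ := hup t (lt_of_lt_of_le ht0 ht)
  obtain ⟨c, hc, n0, hn0⟩ := hlow
  refine ⟨c, max C 1, hc, lt_of_lt_of_le one_pos (le_max_right _ _), n0, ?_⟩
  intro n hn
  constructor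
  · obtain ⟨G, hG, hcard⟩ := hn0 n hn
    have hfree0 : (Blow T R t0).Free G := (free_iff (Blow T R t0) G).1 hG
    have hfree : (Blow T R t).Free G := fun hcon => hfree0 ((blow_mono T R ht).trans hcon)
    have h1 := SimpleGraph.card_edgeFinset_le_extremalNumber hfree
    rw [Fintype.card_fin, ← edge_ncard] at h1
    have h2 : (G.edgeSet.ncard : ℝ) ≤ (SimpleGraph.extremalNumber n (Blow T R t) : ℝ) := by
      exact_mod_cast h1
    exact hcard.trans h2
  · have hnn : (0 : ℝ) ≤ max C 1 * (n : ℝ) ^ r :=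
      mul_nonneg (zero_le_one.trans (le_max_right _ _)) (Real.rpow_nonneg (Nat.cast_nonneg _) _)
    have h1 := (SimpleGraph.extremalNumber_le_iff_of_nonneg (V := Fin n) (Blow T R t) hnn).2 (by
      intro G _ hG
      have h2 := hC n G ((free_iff (Blow T R t) G).2 hG)
      rw [edge_ncard] at h2
      refine h2.trans ?_
      exact mul_le_mul_of_nonneg_right (le_max_left _ _) (Real.rpow_nonneg (Nat.cast_nonneg _) _))
    rw [Fintype.card_fin] at h1
    exact h1

end Pool.Agent.H54.RE.Conv
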