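import Pool.Agent.H54.RE.Low

/-!
# The exponent 3/2
-/

set_option autoImplicit false

open Classical

namespace Pool.Agent.H54.RE

theorem bt_adj (i : Fin 1) (j : Fin 2) : (BT 1 1).Adj (Sum.inl i) (Sum.inr j) := by
  unfold BT
  rw [SimpleGraph.fromRel_adj]
  refine ⟨by simp, Or.inl (Or.inr ⟨i, j, rfl, rfl, ?_⟩)⟩
  have := i.isLt
  split_ifs with h
  · have : j.val = 0 := by omega
    rw [this]
    omega
  · omega

/-- the exponent 3 / 2: the star with two leaves, both roots -/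
theorem mid : ∃ t0 : ℕ, 0 < t0 ∧ ∀ t : ℕ, t0 ≤ t →
      HasExponent (Blow (BT 1 1) (BR 1 1) t) (3 / 2) := by
  obtain ⟨hT, hR, hE, hN, hB, hD⟩ := Bal.bal 1 1 (by norm_num) (by norm_num)
  obtain ⟨t0, ht0, c, hc, n0, hlow⟩ := Pool.Agent.W979.TE.lower (Fin 1 ⊕ Fin (1 + 1)) (BT 1 1)
    (BR 1 1) 1 (1 + 1) hN.symm hE.symm (by norm_num) (by omega) (fun S hS => hB S hS)
  refine ⟨t0, ht0, fun t ht => ?_⟩
  have hup := Pool.Agent.Results.MP_d08c72_co.NoFacingTightSets.result (Fin 1 ⊕ Fin (1 + 1))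
    (BT 1 1) (BR 1 1) hT hR 2 ?_ ?_ (by norm_num) ?_ ?_
  · refine Conv.conv (Fin 1 ⊕ Fin (1 + 1)) (BT 1 1) (BR 1 1) _ (by norm_num) ?_ t0 ht0 ?_ t ht
    · intro t ht
      obtain ⟨C, hC⟩ := hup t ht
      refine ⟨C, fun n G hG => ?_⟩
      have := hC n G hG
      norm_num at this ⊢
      exact this
    · refine ⟨c, hc, n0, fun n hn => ?_⟩
      obtain ⟨G, hG1, hG2⟩ := hlow n hn
      refine ⟨G, hG1, ?_⟩
      norm_num at hG2 ⊢
      exact hG2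
  · have e1 : ({e | e ∈ (BT 1 1).edgeSet ∧ ∃ v ∈ (BR 1 1)ᶜ, v ∈ e} :
      Set (Sym2 (Fin 1 ⊕ Fin (1 + 1)))).ncard = 1 + 1 := hE
    rw [e1, hN]
    norm_num
  · intro S hS hSR
    have e1 := hB S hSR
    have e2 : (eS (BT 1 1) S : ℝ) = (({e | e ∈ (BT 1 1).edgeSet ∧ ∃ v ∈ S, v ∈ e} :
      Set (Sym2 (Fin 1 ⊕ Fin (1 + 1)))).ncard : ℝ) := rfl
    rw [← e2]
    have hSc : (0 : ℝ) < S.ncard := by
      exact_mod_cast (Set.ncard_pos (Set.toFinite S)).2 hS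
    rw [le_div_iff₀ hSc]
    have e3 : (((1 + 1) * S.ncard : ℕ) : ℝ) ≤ ((1 * eS (BT 1 1) S : ℕ) : ℝ) := by
      exact_mod_cast e1
    push_cast at e3
    linarith
  · intro v hv
    rcases v with i | j
    · exact ⟨Sum.inr 0, ⟨0, rfl⟩, bt_adj i 0⟩
    · exact absurd ⟨j, rfl⟩ hv
  · intro C C' v v' hC _ p _ _ _ _
    exfalso
    obtain ⟨-, -, -, ⟨h1, h2, -⟩, -⟩ := hC
    rcases v with i | j
    · unfold Pool.Agent.Results.MP_d08c72_co.NoFacingTightSets.r at h2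
      have h3 : ({Sum.inr 0, Sum.inr 1} : Set (Fin 1 ⊕ Fin (1 + 1))) ⊆
          {u | u ∈ BR 1 1 ∧ (BT 1 1).Adj (Sum.inl i) u} := by
        rintro u (rfl | rfl)
        · exact ⟨⟨0, rfl⟩, bt_adj i 0⟩
        · exact ⟨⟨1, rfl⟩, bt_adj i 1⟩
      have h4 := Set.ncard_le_ncard h3 (Set.toFinite _)
      rw [Set.ncard_pair (by simp)] at h4
      omega
    · exact h1 ⟨j, rfl⟩

end Pool.Agent.H54.RE
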