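import Mathlib

/-!
# The trees of Bukh and Conlon: definitions and statements
-/

set_option autoImplicit false

open Classical

namespace Pool.Agent.H54.RE

/-- The tree T_{a,b} of Bukh and Conlon with b = a + k: a path with the vertices 0, ..., a - 1 and
the roots 0, ..., k; the root j is joined to the vertex floor (j a / k) for j < k and to a - 1 for
j = k. -/
def BT (a k : ℕ) : SimpleGraph (Fin a ⊕ Fin (k + 1)) :=
  SimpleGraph.fromRel (fun u v =>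
    (∃ i j : Fin a, u = Sum.inl i ∧ v = Sum.inl j ∧ i.val + 1 = j.val) ∨
    (∃ (i : Fin a) (j : Fin (k + 1)), u = Sum.inl i ∧ v = Sum.inr j ∧
      i.val = if j.val < k then j.val * a / k else a - 1))

/-- The roots -/
def BR (a k : ℕ) : Set (Fin a ⊕ Fin (k + 1)) := Set.range Sum.inr

/-- The vertices of the t-blowup of T over R: pairs (v, i) with i < t, and i = 0 for roots v. -/
abbrev BV {V : Type} (R : Set V) (t : ℕ) : Type := {p : V × ℕ // p.2 < t ∧ (p.1 ∈ R → p.2 = 0)}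

/-- The t-blowup of T over R: t copies of T which agree on R and are disjoint elsewhere. -/
def Blow {V : Type} (T : SimpleGraph V) (R : Set V) (t : ℕ) : SimpleGraph (BV R t) :=
  SimpleGraph.fromRel (fun a b => T.Adj a.1.1 b.1.1 ∧ (a.1.2 = b.1.2 ∨ a.1.1 ∈ R ∨ b.1.1 ∈ R))

/-- number of edges of T meeting S -/
noncomputable def eS {V : Type} (T : SimpleGraph V) (S : Set V) : ℕ :=
  ({e | e ∈ T.edgeSet ∧ ∃ v ∈ S, v ∈ e} : Set (Sym2 V)).ncard

/-- T_{a,b} is a tree with independent roots, density b / a and balanced; at most two non-root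
neighbours.
Proof of the balance: for S ⊆ Fin a put φ i = ⌈i k / a⌉ and g i = φ i - i k / a ∈ [0, 1), g 0 = 0,
g a = 0.  The number of roots at the vertex v is φ (v+1) - φ v (+ 1 if v = a - 1), since j < k is
joined to v iff v k / a ≤ j < (v + 1) k / a.  The number of edges meeting S is
∑_{v ∈ S} (roots at v) + #{i < a - 1 : i ∈ S ∨ i + 1 ∈ S}
= ∑_{v ∈ S} (φ (v+1) - φ v) + |S| + #{v ∈ S : 0 < v, v - 1 ∉ S}, and
∑_{v ∈ S} (φ (v+1) - φ v) = |S| k / a + ∑_{v ∈ S} (g (v+1) - g v) ≥ |S| k / a - #{v ∈ S : 0 < v, v-1 ∉ S}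
(telescoping on the intervals of S; e.g. by induction on a' ≤ a for S ∩ [0, a') ).
IsTree: e.g. connected and number of edges = number of vertices - 1, or by parents. -/
def S_BAL : Prop := ∀ a k : ℕ, 0 < a → 0 < k →
  (BT a k).IsTree ∧
  (∀ u ∈ BR a k, ∀ v ∈ BR a k, ¬ (BT a k).Adj u v) ∧
  eS (BT a k) (BR a k)ᶜ = a + k ∧ ((BR a k)ᶜ : Set (Fin a ⊕ Fin (k + 1))).ncard = a ∧
  (∀ S : Set (Fin a ⊕ Fin (k + 1)), S ⊆ (BR a k)ᶜ → (a + k) * S.ncard ≤ a * eS (BT a k) S) ∧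
  (∀ v, v ∉ BR a k → ({u | u ∉ BR a k ∧ (BT a k).Adj v u} : Set (Fin a ⊕ Fin (k + 1))).ncard ≤ 2)

/-- `ex (n, H)` has order `n ^ r`. -/
def HasExponent {W : Type} (H : SimpleGraph W) (r : ℝ) : Prop :=
  ∃ c C : ℝ, 0 < c ∧ 0 < C ∧ ∃ n0 : ℕ, ∀ n : ℕ, n0 ≤ n →
    c * (n : ℝ) ^ r ≤ (SimpleGraph.extremalNumber n H : ℝ) ∧
    (SimpleGraph.extremalNumber n H : ℝ) ≤ C * (n : ℝ) ^ r

/-- from the bounds on the numbers of edges of graphs without the blowup to the extremal number.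
The lower bound is only assumed for one t; it follows for all larger t since the t-blowup is a
subgraph of the t'-blowup for t ≤ t'. -/
def S_CONV : Prop := ∀ (V : Type) [Fintype V] (T : SimpleGraph V) (R : Set V) (r : ℝ), 1 < r →
  (∀ t : ℕ, 0 < t → ∃ C : ℝ, ∀ n : ℕ, ∀ G : SimpleGraph (Fin n),
    (¬ ∃ f : {p : V × ℕ // p.2 < t ∧ (p.1 ∈ R → p.2 = 0)} → Fin n,
        Function.Injective f ∧
        ∀ a b : {p : V × ℕ // p.2 < t ∧ (p.1 ∈ R → p.2 = 0)},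
          (SimpleGraph.fromRel
            (fun a b : {p : V × ℕ // p.2 < t ∧ (p.1 ∈ R → p.2 = 0)} =>
              T.Adj a.1.1 b.1.1 ∧ (a.1.2 = b.1.2 ∨ a.1.1 ∈ R ∨ b.1.1 ∈ R))).Adj a b →
          G.Adj (f a) (f b)) →
    (G.edgeSet.ncard : ℝ) ≤ C * (n : ℝ) ^ r) →
  ∀ t0 : ℕ, 0 < t0 →
  (∃ c : ℝ, 0 < c ∧ ∃ n0 : ℕ, ∀ n : ℕ, n0 ≤ n → ∃ G : SimpleGraph (Fin n),
    (¬ ∃ f : {p : V × ℕ // p.2 < t0 ∧ (p.1 ∈ R → p.2 = 0)} → Fin n,
        Function.Injective f ∧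
        ∀ a b : {p : V × ℕ // p.2 < t0 ∧ (p.1 ∈ R → p.2 = 0)},
          (SimpleGraph.fromRel
            (fun a b : {p : V × ℕ // p.2 < t0 ∧ (p.1 ∈ R → p.2 = 0)} =>
              T.Adj a.1.1 b.1.1 ∧ (a.1.2 = b.1.2 ∨ a.1.1 ∈ R ∨ b.1.1 ∈ R))).Adj a b →
          G.Adj (f a) (f b)) ∧
    c * (n : ℝ) ^ r ≤ (G.edgeSet.ncard : ℝ)) →
  ∀ t : ℕ, t0 ≤ t → HasExponent (Blow T R t) r

end Pool.Agent.H54.RE
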